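import Pool.Agent.Helper24.AL.St
import Pool.Agent.Helper28.SP.M_MINK
import Pool.Agent.Helper56.SW.Basic

set_option autoImplicit false

namespace Pool.Agent.Helper76.AL

open Finset Matrix
open Pool.Agent.Helper24.AL
open Pool.Agent.Helper56.SW (τ Γ I bx E Rel N Nq mem_I mem_I' one_le_τ)
open Pool.Agent.Helper28.SP (Hs)

/-- two parameters of a collinear system differ by a multiple of `c / gcd(S, c)` -/
theorem c_dvd_of_eqs (c : ℕ) (l : ℤ) (w1 w2 x y z : ℤ) (hw : IsCoprime w1 w2)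
    (h : Eqs c l ![x * w1, y * w1, z * w1] ![x * w2, y * w2, z * w2]) :
    (c : ℤ) ∣ (x + y + z) + l * (x * y * z * w1 * w2) := by
  obtain ⟨_, h2, h3⟩ := h
  have e2 := h2 0 1 2 (by decide) (by decide) (by decide)
  have e3 := h3 0 1 2 (by decide) (by decide) (by decide)
  simp only [sg, Matrix.cons_val_zero, Matrix.cons_val_one, Matrix.cons_val] at e2 e3
  obtain ⟨u, v, huv⟩ := hw
  have : (x + y + z) + l * (x * y * z * w1 * w2) =
      u * ((x * w1 + y * w1 + z * w1) + l * (x * w1 * (y * w1) * (z * w2))) +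
      v * ((x * w2 + y * w2 + z * w2) + l * (z * w1 * (x * w2) * (y * w2))) := by
    have h1 : (x + y + z) + l * (x * y * z * w1 * w2) =
      (u * w1 + v * w2) * ((x + y + z) + l * (x * y * z * w1 * w2)) := by
      rw [huv, one_mul]
    rw [h1]
    ring
  rw [this]
  exact dvd_add (Dvd.dvd.mul_left e2 u) (Dvd.dvd.mul_left e3 v)

theorem lam_eq (c : ℕ) (t b : Fin 3 → ℤ) :
    Lam c t b = (@Finset.filter ℕ (fun l : ℕ => Eqs c (l : ℤ) t b)
      (fun _ => Classical.propDecidable _) (Us c)).card := by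
  classical
  unfold Lam
  symm
  refine Finset.card_bij (fun (l : ℕ) _ => (l : ℤ)) ?_ ?_ ?_
  · intro l hl
    have hl' := Finset.mem_filter.mp hl
    rw [Finset.mem_filter]
    refine ⟨?_, hl'.2⟩
    simp only [Finset.bind_def, Finset.pure_def, Finset.mem_sup, Finset.mem_singleton]
    exact ⟨l, hl'.1, rfl⟩
  · intro a _ b _ hab
    have : (a : ℤ) = (b : ℤ) := hab
    exact_mod_cast this
  · intro l hl
    have hl' := Finset.mem_filter.mp hl
    have h1 := hl'.1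
    simp only [Finset.bind_def, Finset.pure_def, Finset.mem_sup, Finset.mem_singleton] at h1
    obtain ⟨a, ha, hal⟩ := h1
    refine ⟨a, ?_, hal.symm⟩
    rw [Finset.mem_filter]
    refine ⟨ha, ?_⟩
    rw [← hal]
    exact hl'.2

theorem lam_le (c : ℕ) (hc : 1 ≤ c) (w1 w2 x y z : ℤ) (hw : IsCoprime w1 w2) :
    Lam c ![x * w1, y * w1, z * w1] ![x * w2, y * w2, z * w2] ≤ Int.gcd (x + y + z) c := by
  classical
  rw [lam_eq]
  set g := Int.gcd (x + y + z) c with hg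
  have hgpos : 0 < g := by
    apply Int.gcd_pos_of_ne_zero_right
    exact_mod_cast (by omega : c ≠ 0)
  have hgc : g ∣ c := by
    have : ((g : ℕ) : ℤ) ∣ (c : ℤ) := Int.gcd_dvd_right _ _
    exact_mod_cast this
  obtain ⟨c', hc'⟩ := hgc
  have hc'pos : 0 < c' := by
    rcases Nat.eq_zero_or_pos c' with h | h
    · subst h
      simp at hc'
      omega
    · exact h
  have key : ∀ l ∈ ((Us c).filter fun l : ℕ =>
      Eqs c (l : ℤ) ![x * w1, y * w1, z * w1] ![x * w2, y * w2, z * w2]),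
      ∀ l' ∈ ((Us c).filter fun l : ℕ =>
      Eqs c (l : ℤ) ![x * w1, y * w1, z * w1] ![x * w2, y * w2, z * w2]),
      (c' : ℤ) ∣ (l : ℤ) - l' := by
    intro l hl l' hl'
    have h1 := c_dvd_of_eqs c l w1 w2 x y z hw (Finset.mem_filter.mp hl).2
    have h2 := c_dvd_of_eqs c l' w1 w2 x y z hw (Finset.mem_filter.mp hl').2
    have hP : (c : ℤ) ∣ ((l : ℤ) - l') * (x * y * z * w1 * w2) := by
      have := dvd_sub h1 h2
      have e : (x + y + z + (l : ℤ) * (x * y * z * w1 * w2)) -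
        (x + y + z + (l' : ℤ) * (x * y * z * w1 * w2)) =
        ((l : ℤ) - l') * (x * y * z * w1 * w2) := by ring
      rwa [e] at this
    have hS : (c : ℤ) ∣ ((l : ℤ) - l') * (x + y + z) := by
      have e : ((l : ℤ) - l') * (x + y + z) =
        ((l : ℤ) - l') * (x + y + z + (l : ℤ) * (x * y * z * w1 * w2)) -
        l * (((l : ℤ) - l') * (x * y * z * w1 * w2)) := by ring
      rw [e]
      exact dvd_sub (Dvd.dvd.mul_left h1 _) (Dvd.dvd.mul_left hP _)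
    have hG : (c : ℤ) ∣ ((l : ℤ) - l') * (g : ℤ) := by
      have hb : ((g : ℕ) : ℤ) = (x + y + z) * Int.gcdA (x + y + z) c + c * Int.gcdB (x + y + z) c := by
        rw [hg]
        exact Int.gcd_eq_gcd_ab (x + y + z) c
      rw [hb]
      have e : ((l : ℤ) - l') * ((x + y + z) * Int.gcdA (x + y + z) c + c * Int.gcdB (x + y + z) c) =
        (((l : ℤ) - l') * (x + y + z)) * Int.gcdA (x + y + z) c +
        c * (((l : ℤ) - l') * Int.gcdB (x + y + z) c) := by ring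
      rw [e]
      exact dvd_add (Dvd.dvd.mul_right hS _) (Dvd.intro _ rfl)
    have hc2 : (c : ℤ) = (g : ℤ) * c' := by exact_mod_cast hc'
    rw [hc2, mul_comm ((l : ℤ) - l') (g : ℤ)] at hG
    exact (mul_dvd_mul_iff_left (by exact_mod_cast hgpos.ne')).mp hG
  have hcard : ((Us c).filter fun l : ℕ =>
      Eqs c (l : ℤ) ![x * w1, y * w1, z * w1] ![x * w2, y * w2, z * w2]).card ≤ (range g).card := by
    refine Finset.card_le_card_of_injOn (fun l => l / c') ?_ ?_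
    · intro l hl
      have hl1 := Finset.mem_filter.mp (Finset.mem_filter.mp hl).1
      have hlc := Finset.mem_range.mp hl1.1
      simp only [Finset.coe_range, Set.mem_Iio]
      rw [Nat.div_lt_iff_lt_mul hc'pos]
      rw [hc'] at hlc
      exact hlc
    · intro l hl l' hl' hll
      have hd := key l hl l' hl'
      have hm : l % c' = l' % c' := by
        have h3 : (l' : ℤ) ≡ (l : ℤ) [ZMOD (c' : ℤ)] := (Int.modEq_iff_dvd).mpr hd
        have h4 : l' ≡ l [MOD c'] := (Int.natCast_modEq_iff).mp h3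
        exact h4.symm
      have hll' : l / c' = l' / c' := hll
      rw [← Nat.div_add_mod l c', ← Nat.div_add_mod l' c', hm, hll']
  rw [Finset.card_range] at hcard
  convert hcard

theorem mem_Hs' (n : ℕ) (h : ℤ) : h ∈ Hs n ↔ h ≠ 0 ∧ |h| ≤ n := by
  rw [Pool.Agent.Helper28.SP.MINK.mem_Hs, abs_le]

/-- the sum over the third multiplier -/
theorem sum_third (c m : ℕ) (hc : 1 ≤ c) (x y : ℤ) (hx : x ∈ Hs m) (hy : y ∈ Hs m) :
    ∑ z ∈ Hs m, (Int.gcd (x + y + z) c : ℝ) ≤ c + 6 * m * τ c := by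
  classical
  have hx' := (mem_Hs' m x).mp hx
  have hy' := (mem_Hs' m y).mp hy
  have hsub : (Hs m).image (fun z => x + y + z) ⊆ insert 0 (Hs (3 * m)) := by
    intro s hs
    obtain ⟨z, hz, rfl⟩ := Finset.mem_image.mp hs
    have hz' := (mem_Hs' m z).mp hz
    rw [Finset.mem_insert]
    by_cases h0 : x + y + z = 0
    · exact Or.inl h0
    · right
      rw [mem_Hs']
      refine ⟨h0, ?_⟩
      have h1 : |x + y + z| ≤ |x| + |y| + |z| := by
        calc |x + y + z| ≤ |x + y| + |z| := abs_add_le _ _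
          _ ≤ |x| + |y| + |z| := by linarith [abs_add_le x y]
      push_cast
      linarith [hx'.2, hy'.2, hz'.2]
  have h1 : ∑ z ∈ Hs m, (Int.gcd (x + y + z) c : ℝ) =
      ∑ s ∈ (Hs m).image (fun z => x + y + z), (Int.gcd s c : ℝ) := by
    rw [Finset.sum_image]
    intro a _ b _ hab
    have : x + y + a = x + y + b := hab
    linarith
  rw [h1]
  have h2 : ∑ s ∈ (Hs m).image (fun z => x + y + z), (Int.gcd s c : ℝ) ≤
      ∑ s ∈ insert 0 (Hs (3 * m)), (Int.gcd s c : ℝ) :=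
    Finset.sum_le_sum_of_subset_of_nonneg hsub (fun _ _ _ => Nat.cast_nonneg _)
  have h3 : ∑ s ∈ insert 0 (Hs (3 * m)), (Int.gcd s c : ℝ) =
      (c : ℝ) + ∑ s ∈ Hs (3 * m), (Int.gcd s c : ℝ) := by
    rw [Finset.sum_insert]
    · simp
    · intro h
      exact ((mem_Hs' _ _).mp h).1 rfl
  have h4 := Pool.Agent.Helper28.SP.MINK.thm' c (3 * m) hc
  push_cast at h4
  calc ∑ s ∈ (Hs m).image (fun z => x + y + z), (Int.gcd s c : ℝ)
      ≤ (c : ℝ) + ∑ s ∈ Hs (3 * m), (Int.gcd s c : ℝ) := by rw [← h3]; exact h2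
    _ ≤ c + 6 * m * τ c := by linarith

theorem sum_triple (c m : ℕ) (hc : 1 ≤ c) :
    ∑ M ∈ Hs m ×ˢ (Hs m ×ˢ Hs m), (Int.gcd (M.1 + M.2.1 + M.2.2) c : ℝ) ≤
      4 * (m : ℝ) ^ 2 * (c + 6 * m * τ c) := by
  rw [Finset.sum_product]
  have h1 : ∀ x ∈ Hs m, ∑ q ∈ Hs m ×ˢ Hs m, (Int.gcd (x + q.1 + q.2) c : ℝ) ≤
      2 * m * (c + 6 * m * τ c) := by
    intro x hx
    rw [Finset.sum_product]
    calc ∑ y ∈ Hs m, ∑ z ∈ Hs m, (Int.gcd (x + y + z) c : ℝ)
        ≤ ∑ y ∈ Hs m, ((c : ℝ) + 6 * m * τ c) :=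
          Finset.sum_le_sum (fun y hy => sum_third c m hc x y hx hy)
      _ = 2 * m * (c + 6 * m * τ c) := by
          rw [Finset.sum_const, Pool.Agent.Helper28.SP.MINK.card_Hs, nsmul_eq_mul]
          push_cast
          ring
  calc ∑ x ∈ Hs m, ∑ q ∈ Hs m ×ˢ Hs m, (Int.gcd (x + q.1 + q.2) c : ℝ)
      ≤ ∑ x ∈ Hs m, 2 * (m : ℝ) * (c + 6 * m * τ c) := Finset.sum_le_sum h1
    _ = 4 * (m : ℝ) ^ 2 * (c + 6 * m * τ c) := by
          rw [Finset.sum_const, Pool.Agent.Helper28.SP.MINK.card_Hs, nsmul_eq_mul]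
          push_cast
          ring

/-- coprime directions with multipliers -/
noncomputable def Ys (A B : ℕ) : Finset ((_ : ℤ × ℤ) × (ℤ × ℤ × ℤ)) := by
  classical
  exact ((Bz A B).filter fun w => IsCoprime w.1 w.2).sigma
    (fun w => Hs (mx A B w) ×ˢ (Hs (mx A B w) ×ˢ Hs (mx A B w)))

/-- the vectors of a direction with multipliers -/
def Fm (y : (_ : ℤ × ℤ) × (ℤ × ℤ × ℤ)) : (Fin 3 → ℤ) × (Fin 3 → ℤ) :=
  (![y.2.1 * y.1.1, y.2.2.1 * y.1.1, y.2.2.2 * y.1.1],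
   ![y.2.1 * y.1.2, y.2.2.1 * y.1.2, y.2.2.2 * y.1.2])

theorem abs_le_mx {A B : ℕ} {M w1 w2 : ℤ} (h1 : w1 ≠ 0) (h2 : w2 ≠ 0)
    (hA : |M * w1| ≤ A) (hB : |M * w2| ≤ B) : |M| ≤ mx A B (w1, w2) := by
  have hA' : M.natAbs * w1.natAbs ≤ A := by
    rw [← Int.natAbs_mul]
    have : ((M * w1).natAbs : ℤ) ≤ A := by rw [Int.natCast_natAbs]; exact hA
    exact_mod_cast this
  have hB' : M.natAbs * w2.natAbs ≤ B := by
    rw [← Int.natAbs_mul]
    have : ((M * w2).natAbs : ℤ) ≤ B := by rw [Int.natCast_natAbs]; exact hB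
    exact_mod_cast this
  have h3 : M.natAbs ≤ mx A B (w1, w2) := by
    unfold mx
    refine le_min ?_ ?_
    · exact (Nat.le_div_iff_mul_le (Int.natAbs_pos.mpr h1)).mpr hA'
    · exact (Nat.le_div_iff_mul_le (Int.natAbs_pos.mpr h2)).mpr hB'
  rw [← Int.natCast_natAbs]
  exact_mod_cast h3

theorem mem_image_Fm {A B : ℕ} {p : (Fin 3 → ℤ) × (Fin 3 → ℤ)} (hp : p ∈ Bx A B)
    (hN : Nz p.1 p.2) (hC : Col p.1 p.2) : ∃ y ∈ Ys A B, Fm y = p := by
  classical
  obtain ⟨t, b⟩ := p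
  unfold Bx at hp
  rw [Finset.mem_product, Fintype.mem_piFinset, Fintype.mem_piFinset] at hp
  obtain ⟨ht, hb⟩ := hp
  simp only at ht hb hN hC
  have ht' : ∀ i, |t i| ≤ A := fun i => mem_I.mp (ht i)
  have hb' : ∀ i, |b i| ≤ B := fun i => mem_I.mp (hb i)
  have h0 := hN 0
  obtain ⟨w1, w2, hco, δ, hδ1, hδ2⟩ : ∃ w1 w2 : ℤ, IsCoprime w1 w2 ∧ ∃ δ : ℤ, t 0 = δ * w1 ∧
      b 0 = δ * w2 := by
    have hpos : 0 < Int.gcd (t 0) (b 0) := Int.gcd_pos_of_ne_zero_left _ h0.1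
    obtain ⟨w1, w2, hc, e1, e2⟩ := Int.exists_gcd_one hpos
    exact ⟨w1, w2, Int.isCoprime_iff_gcd_eq_one.mpr hc, (Int.gcd (t 0) (b 0) : ℤ),
      by rw [mul_comm]; exact e1, by rw [mul_comm]; exact e2⟩
  have hδ : δ ≠ 0 := by
    rintro rfl
    apply h0.1
    rw [hδ1, zero_mul]
  have hw1 : w1 ≠ 0 := by
    rintro rfl
    apply h0.1
    rw [hδ1, mul_zero]
  have hw2 : w2 ≠ 0 := by
    rintro rfl
    apply h0.2
    rw [hδ2, mul_zero]
  have hcol : ∀ i, t i * w2 = w1 * b i := by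
    intro i
    have h1 := hC 0 i
    rw [hδ1, hδ2] at h1
    have h2 : δ * (t i * w2) = δ * (w1 * b i) := by
      linear_combination -h1
    exact mul_left_cancel₀ hδ h2
  have hM : ∀ i, ∃ M : ℤ, t i = M * w1 ∧ b i = M * w2 := by
    intro i
    have h1 : w1 ∣ t i * w2 := ⟨b i, hcol i⟩
    have h2 : w1 ∣ t i := hco.dvd_of_dvd_mul_right h1
    obtain ⟨M, hM⟩ := h2
    refine ⟨M, by rw [hM]; ring, ?_⟩
    have h3 := hcol i
    rw [hM] at h3
    have h4 : w1 * (M * w2) = w1 * b i := by rw [← h3]; ring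
    exact (mul_left_cancel₀ hw1 h4).symm
  choose M hM1 hM2 using hM
  have hMne : ∀ i, M i ≠ 0 := by
    intro i h
    apply (hN i).1
    rw [hM1 i, h, zero_mul]
  have hMle : ∀ i, M i ∈ Hs (mx A B (w1, w2)) := by
    intro i
    rw [mem_Hs']
    refine ⟨hMne i, ?_⟩
    apply abs_le_mx hw1 hw2
    · rw [← hM1 i]; exact ht' i
    · rw [← hM2 i]; exact hb' i
  have hwA : |w1| ≤ A := by
    have h1 := ht' 0
    rw [hδ1, abs_mul] at h1
    have h2 : 1 ≤ |δ| := Int.one_le_abs hδ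
    nlinarith [abs_nonneg w1]
  have hwB : |w2| ≤ B := by
    have h1 := hb' 0
    rw [hδ2, abs_mul] at h1
    have h2 : 1 ≤ |δ| := Int.one_le_abs hδ
    nlinarith [abs_nonneg w2]
  refine ⟨⟨(w1, w2), (M 0, M 1, M 2)⟩, ?_, ?_⟩
  · unfold Ys
    rw [Finset.mem_sigma]
    refine ⟨?_, ?_⟩
    · rw [Finset.mem_filter]
      refine ⟨?_, hco⟩
      unfold Bz
      rw [Finset.mem_filter, Finset.mem_product]
      exact ⟨⟨mem_I.mpr hwA, mem_I.mpr hwB⟩, hw1, hw2⟩
    · simp only [Finset.mem_product]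
      exact ⟨hMle 0, hMle 1, hMle 2⟩
  · unfold Fm
    simp only [Prod.mk.injEq]
    refine ⟨?_, ?_⟩
    · funext i
      fin_cases i
      · exact (hM1 0).symm
      · exact (hM1 1).symm
      · exact (hM1 2).symm
    · funext i
      fin_cases i
      · exact (hM2 0).symm
      · exact (hM2 1).symm
      · exact (hM2 2).symm

theorem WT_le (c A B : ℕ) (P : (Fin 3 → ℤ) → (Fin 3 → ℤ) → Prop)
    (hP : ∀ t b, P t b → Nz t b ∧ Col t b) :
    WT c A B P ≤ ∑ y ∈ Ys A B, Lam c (Fm y).1 (Fm y).2 := by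
  classical
  unfold WT
  refine le_trans (Finset.sum_le_sum_of_subset_of_nonneg (t := (Ys A B).image Fm) ?_
    (fun _ _ _ => Nat.zero_le _)) ?_
  · intro p hp
    rw [Finset.mem_filter] at hp
    have h := hP _ _ hp.2
    obtain ⟨y, hy, hyp⟩ := mem_image_Fm hp.1 h.1 h.2
    exact Finset.mem_image.mpr ⟨y, hy, hyp⟩
  · exact Finset.sum_image_le_of_nonneg (f := fun p : (Fin 3 → ℤ) × (Fin 3 → ℤ) =>
      Lam c p.1 p.2) (fun _ _ => Nat.zero_le _)

theorem hC (hMX : StMX) : StC := by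
  classical
  intro c A B hc hA hB
  have hτ : 0 ≤ τ c := le_trans zero_le_one (one_le_τ hc)
  have h1 : WT c A B (fun t b => Nz t b ∧ Col t b) ≤ ∑ y ∈ Ys A B, Lam c (Fm y).1 (Fm y).2 :=
    WT_le c A B _ (fun _ _ h => h)
  have h2 : (∑ y ∈ Ys A B, (Lam c (Fm y).1 (Fm y).2 : ℝ)) ≤
      ∑ w ∈ (Bz A B).filter (fun w => IsCoprime w.1 w.2),
        4 * (mx A B w : ℝ) ^ 2 * (c + 6 * mx A B w * τ c) := by
    unfold Ys
    rw [Finset.sum_sigma]
    refine Finset.sum_le_sum (fun w hw => ?_)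
    have hco := (Finset.mem_filter.mp hw).2
    refine le_trans ?_ (sum_triple c (mx A B w) hc)
    refine Finset.sum_le_sum (fun M _ => ?_)
    exact_mod_cast lam_le c hc w.1 w.2 M.1 M.2.1 M.2.2 hco
  have h3 : (∑ w ∈ (Bz A B).filter (fun w => IsCoprime w.1 w.2),
        4 * (mx A B w : ℝ) ^ 2 * (c + 6 * mx A B w * τ c)) ≤
      ∑ w ∈ Bz A B, 4 * (mx A B w : ℝ) ^ 2 * (c + 6 * mx A B w * τ c) :=
    Finset.sum_le_sum_of_subset_of_nonneg (Finset.filter_subset _ _)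
      (fun w _ _ => by positivity)
  have h4 : (∑ w ∈ Bz A B, 4 * (mx A B w : ℝ) ^ 2 * (c + 6 * mx A B w * τ c)) =
      4 * c * ∑ w ∈ Bz A B, (mx A B w : ℝ) ^ 2 + 24 * τ c * ∑ w ∈ Bz A B, (mx A B w : ℝ) ^ 3 := by
    rw [Finset.mul_sum, Finset.mul_sum, ← Finset.sum_add_distrib]
    refine Finset.sum_congr rfl (fun w _ => ?_)
    ring
  obtain ⟨m2, m3⟩ := hMX A B hA hB
  have h5 : (WT c A B (fun t b => Nz t b ∧ Col t b) : ℝ) ≤
      ∑ y ∈ Ys A B, (Lam c (Fm y).1 (Fm y).2 : ℝ) := by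
    exact_mod_cast h1
  have hc0 : (0 : ℝ) ≤ c := Nat.cast_nonneg c
  calc (WT c A B (fun t b => Nz t b ∧ Col t b) : ℝ)
      ≤ 4 * c * ∑ w ∈ Bz A B, (mx A B w : ℝ) ^ 2 + 24 * τ c * ∑ w ∈ Bz A B, (mx A B w : ℝ) ^ 3 := by
        rw [← h4]; exact le_trans h5 (le_trans h2 h3)
    _ ≤ 4 * c * (8 * A * B * (1 + Real.log A)) + 24 * τ c * (12 * (A : ℝ) ^ 2 * B) := by
        refine add_le_add ?_ ?_
        · exact mul_le_mul_of_nonneg_left m2 (by positivity)
        · exact mul_le_mul_of_nonneg_left m3 (by positivity)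
    _ = 32 * c * A * B * (1 + Real.log A) + 288 * τ c * (A : ℝ) ^ 2 * B := by ring

end Pool.Agent.Helper76.AL
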